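import Pool.Agent.PX.Stmts

set_option autoImplicit false

/-!
# Squad PX, row FNX: products
-/

namespace Pool.Agent.PX.H76

open MvPolynomial
open Pool.Agent.RS (FF io)
open Pool.Agent.PW (dd)

theorem fnx (hs : FnsStmt) (hm : FnmStmt) : FnxStmt := by
  intro E _ s Γ hsym
  obtain ⟨hm1, -, -, -, -⟩ := hm E s Γ hsym
  have hzero : ∀ (c : ℕ) (G : Finset ℕ), FN Γ c G (0 : FF E) := by
    intro c G
    obtain ⟨S, hS⟩ := hs E Γ c G
    exact (hS 0).1 S.zero_mem
  have hadd : ∀ (c : ℕ) (G : Finset ℕ) (f g : FF E), FN Γ c G f → FN Γ c G g →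
      FN Γ c G (f + g) := by
    intro c G f g hf hg
    obtain ⟨S, hS⟩ := hs E Γ c G
    exact (hS _).1 (S.add_mem ((hS _).2 hf) ((hS _).2 hg))
  have main : ∀ (n c c' : ℕ), c + c' = n → ∀ (G : Finset ℕ) (f g : FF E),
      FN Γ c G f → FN Γ c' G g → FN Γ n G (f * g) := by
    intro n
    induction n with
    | zero =>
      intro c c' hn G f g hf hg
      obtain ⟨rfl, rfl⟩ : c = 0 ∧ c' = 0 := by omega
      intro i hi
      have h1 : dd i f = 0 := hf i hi
      have h2 : dd i g = 0 := hg i hi
      rw [Derivation.leibniz, h1, h2, smul_zero, smul_zero, add_zero]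
    | succ n ih =>
      intro c c' hn G f g hf hg i hi
      rw [Derivation.leibniz, smul_eq_mul, smul_eq_mul]
      have hsub : G ⊆ G ∪ Γ i := Finset.subset_union_left
      apply hadd
      · rcases c' with _ | c''
        · have h2 : dd i g = 0 := hg i hi
          rw [h2, mul_zero]
          exact hzero _ _
        · exact ih c c'' (by omega) _ _ _ (hm1 _ _ _ _ hsub hf) (hg i hi)
      · rcases c with _ | c1
        · have h2 : dd i f = 0 := hf i hi
          rw [h2, mul_zero]
          exact hzero _ _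
        · exact ih c' c1 (by omega) _ _ _ (hm1 _ _ _ _ hsub hg) (hf i hi)
  intro c c' G f g hf hg
  exact main (c + c') c c' rfl G f g hf hg

end Pool.Agent.PX.H76
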